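import Pool.Agent.H27B.Four

open Pool.Agent.H27B

namespace Pool.Agent.Results.MP_1e96f1_co.KAtMostTwoD

/-- Let `Bl` be a beta(i) design with parameter `(v, k, d)`, where `d > 0` and `1 < i < k - d`, and
put `j = k - d - i + 1`. Then `i` divides `d`, `j` divides `v - 2 k + d`, `i (j + 1) ≤ k`,
`j (i + 1) ≤ v - k`, `k ≤ 2 d`, `3 k ≤ v + 2 d` and `v ≤ d (d + 2)`. For every block `B` and every
`i`-set `U` disjoint from `B`, the sets `B \ C`, where `C` runs over the blocks with `U ⊆ C` and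
`|B ∩ C| = d`, are the blocks of a Steiner system `S(j, k - d, k)` on `B`; for every `j`-set
`U ⊆ B`, the sets `C \ B`, where `C` runs over the blocks disjoint from `U` with `|B ∩ C| = d`, are
the blocks of a Steiner system `S(i, k - d, v - k)` on the complement of `B`. The number `d` is
not prime, and if `d ≤ 5`, then `(v, k, d) = (24, 8, 4)` and `i = 2`. -/
theorem result (v k d i : ℕ) (Bl : Finset (Finset (Fin v))) (h : IsBeta Bl k d i) (hd : 0 < d)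
    (hi : 1 < i) (hik : i < k - d) :
    (i ∣ d ∧ (k - d - i + 1) ∣ (v + d - 2 * k)) ∧
    (i * (k - d - i + 2) ≤ k ∧ (k - d - i + 1) * (i + 1) ≤ v - k) ∧
    (k ≤ 2 * d ∧ 3 * k ≤ v + 2 * d) ∧ v ≤ d * (d + 2) ∧
    (∀ B ∈ Bl, ∀ U : Finset (Fin v), U.card = i → Disjoint U B →
      ∀ T ⊆ B, T.card = k - d - i + 1 →
        ∃! P : Finset (Fin v), (∃ C ∈ Bl, U ⊆ C ∧ (B ∩ C).card = d ∧ P = B \ C) ∧ T ⊆ P) ∧
    (∀ B ∈ Bl, ∀ U ⊆ B, U.card = k - d - i + 1 →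
      ∀ T : Finset (Fin v), Disjoint T B → T.card = i →
        ∃! P : Finset (Fin v), (∃ C ∈ Bl, Disjoint U C ∧ (B ∩ C).card = d ∧ P = C \ B) ∧
          T ⊆ P) ∧
    ¬ d.Prime ∧ (d ≤ 5 → v = 24 ∧ k = 8 ∧ d = 4 ∧ i = 2) := by
  have h2i := (h.main hd hi hik).2.1
  have hm := h.main2 hd hi hik
  rw [Fintype.card_fin] at hm
  obtain ⟨h1, h2, h3, h4⟩ := hm
  refine ⟨h1, h2, h3, h4, ?_, ?_, ?_, ?_⟩
  · intro B hB U hU hUB T hT hTc
    obtain ⟨C, ⟨g1, g2, g3, g4⟩, huni⟩ := h.steiner hik hB hU hUB hT hTc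
    refine ⟨B \ C, ⟨⟨C, g1, g2, g3, rfl⟩, g4⟩, ?_⟩
    rintro P ⟨⟨D, f1, f2, f3, rfl⟩, f4⟩
    rw [huni D ⟨f1, f2, f3, f4⟩]
  · intro B hB U hUB hU T hT hTc
    obtain ⟨C, ⟨g1, g2, g3, g4⟩, huni⟩ := h.steiner2 hi hik hB hU hUB hT hTc
    refine ⟨C \ B, ⟨⟨C, g1, g2, g3, rfl⟩, g4⟩, ?_⟩
    rintro P ⟨⟨D, f1, f2, f3, rfl⟩, f4⟩
    rw [huni D ⟨f1, f2, f3, f4⟩]
  · intro hp
    rcases hp.eq_one_or_self_of_dvd i h1.1 with e | e <;> omega
  · intro hd5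
    have hid := h1.1
    have hd4' : d = 4 := by
      have hcase : d = 4 ∨ d = 5 := by omega
      rcases hcase with e | e
      · exact e
      · subst e
        have : i = 2 := by omega
        subst this
        omega
    subst hd4'
    obtain ⟨e1, e2, e3⟩ := h.four hi hik
    rw [Fintype.card_fin] at e1
    exact ⟨e1, e2, rfl, e3⟩

end Pool.Agent.Results.MP_1e96f1_co.KAtMostTwoD
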